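import Mathlib

open MeasureTheory Finset
open scoped ENNReal NNReal

namespace Pool.Agent.H.MP_6c3571_pr

section gen
variable {V : Type} {G : SimpleGraph V}

noncomputable def m (Γ : Subgroup (G ≃g G)) (x y : V) : ℕ := {z | ∃ γ ∈ Γ, γ x = x ∧ γ y = z}.ncard

def St (Γ : Subgroup (G ≃g G)) (x : V) : Subgroup (G ≃g G) := Γ ⊓ MulAction.stabilizer (G ≃g G) x

lemma m_eq (Γ : Subgroup (G ≃g G)) (x y : V) : m Γ x y = (St Γ y).relIndex (St Γ x) := by
  have h : (St Γ y).subgroupOf (St Γ x) = MulAction.stabilizer (St Γ x) y := by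
    ext γ
    exact and_iff_right γ.2.1
  rw [Subgroup.relIndex, h, MulAction.index_stabilizer, m]
  congr 1
  ext z
  exact ⟨fun ⟨γ, h1, h2, h3⟩ => ⟨⟨γ, h1, h2⟩, h3⟩, fun ⟨γ, h3⟩ => ⟨γ.1, γ.2.1, γ.2.2, h3⟩⟩

lemma cocycle (Γ : Subgroup (G ≃g G)) (h : ∀ x y, m Γ x y ≠ 0) (x y z : V) :
    m Γ x y * m Γ y z * m Γ z x = m Γ y x * m Γ z y * m Γ x z := by
  simp only [m_eq] at h ⊢
  have e : ∀ A B C : Subgroup (G ≃g G), C.relIndex (B ⊓ A) * B.relIndex A = B.relIndex (C ⊓ A) * C.relIndex A :=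
    fun A B C => by rw [Subgroup.relIndex_inf_mul_relIndex, Subgroup.relIndex_inf_mul_relIndex, inf_comm]
  have e1 := e (St Γ x) (St Γ y) (St Γ z)
  have e2 := e (St Γ y) (St Γ z) (St Γ x)
  have e3 := e (St Γ z) (St Γ x) (St Γ y)
  rw [inf_comm (St Γ x) (St Γ y)] at e2
  rw [inf_comm (St Γ x) (St Γ z), inf_comm (St Γ y) (St Γ z)] at e3
  have n1 : (St Γ z).relIndex (St Γ y ⊓ St Γ x) ≠ 0 := fun h1 =>
    h x z (Subgroup.relIndex_eq_zero_of_le_right inf_le_right h1)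
  have n2 : (St Γ x).relIndex (St Γ z ⊓ St Γ y) ≠ 0 := fun h1 =>
    h y x (Subgroup.relIndex_eq_zero_of_le_right inf_le_right h1)
  have n3 : (St Γ y).relIndex (St Γ z ⊓ St Γ x) ≠ 0 := fun h1 =>
    h x y (Subgroup.relIndex_eq_zero_of_le_right inf_le_right h1)
  refine mul_left_cancel₀ (mul_ne_zero (mul_ne_zero n1 n2) n3) ?_
  have := congrArg₂ (· * ·) (congrArg₂ (· * ·) e1 e2) e3
  linarith

def mkIso (f g : V → V) (h1 : ∀ x, g (f x) = x) (h2 : ∀ x, f (g x) = x) (h3 : ∀ x y, G.Adj x y → G.Adj (f x) (f y))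
    (h4 : ∀ x y, G.Adj x y → G.Adj (g x) (g y)) : G ≃g G :=
  ⟨⟨f, g, h1, h2⟩, fun {x y} => ⟨fun h => by simpa [h1] using h4 _ _ h, h3 x y⟩⟩

end gen

abbrev S : Type := Fin 3 ⊕ Fin 27

def back : S → S := Sum.elim (fun _ => .inr 0) fun _ => .inl 0

def sg : S → ℤ := Sum.elim (fun _ => 1) fun _ => -1

def V : Type := {l : List S // l.IsChain fun c d => d ≠ back c}

def G : SimpleGraph V := .fromRel fun u v => ∃ c, v.1 = u.1 ++ [c]

def o : V := ⟨[], .nil⟩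

def one (c : S) : V := ⟨[c], by simp⟩

def ht (v : V) : ℤ := (v.1.map sg).sum

lemma adj {u v : V} : G.Adj u v ↔ (∃ c, v.1 = u.1 ++ [c]) ∨ ∃ c, u.1 = v.1 ++ [c] := by
  refine and_iff_right_of_imp fun h e => ?_
  subst e
  rcases h with ⟨c, h⟩ | ⟨c, h⟩ <;> simpa using congrArg List.length h

lemma hom (f : V → V) (h : ∀ u v c, v.1 = u.1 ++ [c] → G.Adj (f u) (f v)) (x y : V) (hxy : G.Adj x y) :
    G.Adj (f x) (f y) := by
  rcases adj.1 hxy with ⟨c, h1⟩ | ⟨c, h1⟩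
  exacts [h x y c h1, (h y x c h1).symm]

def Γ : Subgroup (G ≃g G) where
  carrier := {γ | ∀ x y, ht (γ x) - ht (γ y) = ht x - ht y}
  one_mem' := fun _ _ => rfl
  mul_mem' := fun {a b} ha hb x y => (ha (b x) (b y)).trans (hb x y)
  inv_mem' := fun {a} ha x y => by simpa using (ha (a⁻¹ x) (a⁻¹ y)).symm

def pi (e : S → S) (h : ∀ c, back (e c) = back c) (v : V) : V :=
  ⟨v.1.modifyHead e, by
    obtain ⟨_ | ⟨c, _ | ⟨d, l⟩⟩, hv⟩ := v
    · simp
    · simp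
    · simpa [h] using hv⟩

lemma pi_hom (e : S → S) (h : ∀ c, back (e c) = back c) : ∀ x y, G.Adj x y → G.Adj (pi e h x) (pi e h y) :=
  hom _ fun ⟨u, _⟩ ⟨v, _⟩ c h1 => adj.2 (Or.inl (by
    simp only at h1
    subst h1
    rcases u with _ | ⟨d, l⟩
    exacts [⟨e c, rfl⟩, ⟨c, rfl⟩]))

lemma ex_pi (c d : S) (h : sg c = sg d) : ∃ γ ∈ Γ, γ o = o ∧ γ (one c) = one d := by
  have h1 : ∀ t, back (Equiv.swap c d t) = back t ∧ sg (Equiv.swap c d t) = sg t := fun t => by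
    rw [Equiv.swap_apply_def]
    split_ifs with h1 h2
    · subst h1
      rcases t with t | t <;> rcases d with d | d <;> simp_all [back, sg]
    · subst h2
      rcases t with t | t <;> rcases c with c | c <;> simp_all [back, sg]
    · simp
  have h2 : ∀ x, pi _ (fun t => (h1 t).1) (pi _ (fun t => (h1 t).1) x) = x := fun ⟨l, _⟩ =>
    Subtype.ext (by rcases l with _ | ⟨t, l⟩ <;> simp [pi])
  have h3 : ∀ x, ht (pi _ (fun t => (h1 t).1) x) = ht x := fun ⟨l, _⟩ => by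
    rcases l with _ | ⟨t, l⟩ <;> simp [pi, ht, h1]
  exact ⟨mkIso _ _ h2 h2 (pi_hom _ _) (pi_hom _ _), fun x y => congrArg₂ _ (h3 x) (h3 y), rfl,
    Subtype.ext (by simp [mkIso, pi, one])⟩

def T (c : S) : V → V
  | ⟨[], _⟩ => ⟨[c], by simp⟩
  | ⟨d :: l, h⟩ => if e : d = back c then ⟨l, h.tail⟩ else ⟨c :: d :: l, by simpa [e] using h⟩

lemma T_hom (c : S) : ∀ x y, G.Adj x y → G.Adj (T c x) (T c y) :=
  hom _ fun ⟨u, _⟩ ⟨v, _⟩ t h1 => adj.2 (by
    simp only at h1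
    subst h1
    rcases u with _ | ⟨d, l⟩
    · by_cases e : t = back c <;> simp [T, e]
    · by_cases e : d = back c <;> simp [T, e])

lemma T_inv (c : S) (hc : back (back c) = c) (x : V) : T (back c) (T c x) = x := by
  obtain ⟨_ | ⟨d, l⟩, h⟩ := x
  · simp [T, hc]
  · by_cases e : d = back c
    · subst e
      rcases l with _ | ⟨t, l⟩
      · simp [T]
      · have : t ≠ back (back c) := (List.isChain_cons_cons.1 h).1
        simp [T, this]
    · simp [T, e, hc]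

lemma T_ht (c : S) (x : V) : ht (T c x) = ht x + sg c := by
  obtain ⟨_ | ⟨d, l⟩, h⟩ := x
  · simp [T, ht]
  · by_cases e : d = back c
    · rcases c with c | c <;> simp [T, e, ht, sg, back]
    · simp [T, e, ht, add_comm]

lemma ex_T (c : S) : ∃ γ ∈ Γ, γ o = one c := by
  have hc : back (back (back (back c))) = back (back c) := by rcases c with c | c <;> rfl
  obtain ⟨γ, h1, -, h2⟩ := ex_pi (back (back c)) c (by rcases c with c | c <;> rfl)
  refine ⟨γ * mkIso (T (back (back c))) (T (back (back (back c)))) (T_inv _ hc) (fun x => ?_) (T_hom _) (T_hom _),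
    Γ.mul_mem h1 fun x y => ?_, h2⟩
  · have := T_inv (back (back (back c))) (by rw [hc]) x
    rwa [hc] at this
  · change ht (T _ x) - ht (T _ y) = _
    rw [T_ht, T_ht]
    ring

lemma ind {P : V → Prop} (h0 : P o) (h : ∀ x y, G.Adj x y → P x → P y) (v : V) : P v := by
  obtain ⟨l, hl⟩ := v
  induction l using List.reverseRecOn with
  | nil => exact h0
  | append_singleton l c ih => exact h ⟨l, hl.left_of_append⟩ _ (adj.2 (Or.inl ⟨c, rfl⟩)) (ih _)

lemma adj_o {v : V} : G.Adj o v ↔ ∃ c, v = one c := by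
  rw [adj]
  simp [o, one, Subtype.ext_iff, V]

lemma trans (v : V) : ∃ γ ∈ Γ, γ o = v := by
  refine ind (P := fun v => ∃ γ ∈ Γ, γ o = v) ⟨1, Γ.one_mem, rfl⟩ ?_ v
  rintro _ y h ⟨γ, h1, rfl⟩
  obtain ⟨c, hc⟩ := adj_o.1 (show G.Adj o (γ.symm y) by simpa using γ.symm.map_adj_iff.2 h)
  obtain ⟨δ, h2, h3⟩ := ex_T c
  exact ⟨γ * δ, Γ.mul_mem h1 h2, by simp [h3, ← hc]⟩

lemma ex_nb : ∃ nb : V → S → V, (∀ x, Function.Injective (nb x)) ∧ (∀ x y, G.Adj x y ↔ ∃ c, nb x c = y) ∧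
    (∀ x c, ht (nb x c) = ht x + sg c) ∧ ∀ x c d, sg c = sg d → ∃ γ ∈ Γ, γ x = x ∧ γ (nb x c) = nb x d := by
  choose γ h1 h2 using trans
  refine ⟨fun x c => γ x (one c), fun x c d h => by simpa [V, one] using h, fun x y => ?_, fun x c => ?_,
    fun x c d h => ?_⟩
  · have : G.Adj x y ↔ G.Adj o ((γ x).symm y) := by
      rw [← (γ x).map_adj_iff (v := o), h2, RelIso.apply_symm_apply]
    rw [this, adj_o]
    exact exists_congr fun c => ⟨fun h => by simp [← h], fun h => by simp [← h]⟩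
  · have := h1 x (one c) o
    rw [h2] at this
    simp only [ht, o, one, List.map_cons, List.map_nil, List.sum_cons, List.sum_nil] at this ⊢
    linarith
  · obtain ⟨δ, h3, h4, h5⟩ := ex_pi c d h
    refine ⟨γ x * δ * (γ x)⁻¹, Γ.mul_mem (Γ.mul_mem (h1 x) h3) (Γ.inv_mem (h1 x)), ?_, by simp [h5]⟩
    have : (γ x)⁻¹ x = o := by conv_lhs => enter [2]; rw [← h2 x]
                               simp
    simp [this, h4, h2]

noncomputable def u (x : V) : ℝ≥0 := 3 ^ ht x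

lemma w_eq (x : V) : (m Γ x o : ℝ) / m Γ o x = (u x ^ 2 : ℝ≥0) := by
  obtain ⟨nb, h1, h2, h3, h4⟩ := ex_nb
  have e : ∀ x c, m Γ x (nb x c) = #{d | sg d = sg c} := fun x c => by
    rw [m, ← Set.ncard_coe_finset, ← Set.ncard_image_of_injective _ (h1 x)]
    congr 1
    ext z
    simp only [Set.mem_ofPred_eq, coe_filter, mem_univ, true_and, Set.mem_image]
    constructor
    · rintro ⟨γ, h5, h6, rfl⟩
      obtain ⟨d, hd⟩ := (h2 x (γ (nb x c))).1 (by simpa [h6] using γ.map_adj_iff.2 ((h2 x _).2 ⟨c, rfl⟩))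
      have := h5 (nb x c) x
      rw [h6, ← hd, h3, h3] at this
      exact ⟨d, by linarith, hd⟩
    · rintro ⟨d, h5, rfl⟩
      exact h4 x c d h5.symm
  have e1 : ∀ x y, G.Adj x y → (ht y = ht x + 1 ∧ m Γ x y = 3) ∨ (ht y = ht x - 1 ∧ m Γ x y = 27) := fun x y h => by
    obtain ⟨c, rfl⟩ := (h2 x y).1 h
    rw [e, h3]
    rcases c with c | c
    · exact Or.inl ⟨rfl, by simp only [sg, Sum.elim_inl]; decide⟩
    · exact Or.inr ⟨rfl, by simp only [sg, Sum.elim_inr]; decide⟩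
  have e2 : ∀ x y, G.Adj x y → ∀ z, m Γ z x ≠ 0 → m Γ z y ≠ 0 := fun x y h z hz => by
    have : m Γ x y ≠ 0 := by rcases e1 x y h with h | h <;> simp [h.2]
    simp only [m_eq] at this hz ⊢
    exact Subgroup.relIndex_ne_zero_trans this hz
  have e3 : ∀ x, m Γ x o ≠ 0 := ind (by simp [m_eq]) fun x y h hx => by
    have : m Γ y x ≠ 0 := by rcases e1 y x h.symm with h | h <;> simp [h.2]
    simp only [m_eq] at this hx ⊢
    exact Subgroup.relIndex_ne_zero_trans hx this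
  have e4 : ∀ x y, m Γ x y ≠ 0 := fun x => ind (e3 x) fun y z h => e2 y z h x
  refine ind (P := fun x => (m Γ x o : ℝ) / m Γ o x = (u x ^ 2 : ℝ≥0)) (by simp [e3, u, show ht o = 0 from rfl]) (fun x y h hx => ?_) x
  have e5 : (m Γ x y * m Γ y o * m Γ o x : ℝ) = m Γ y x * m Γ o y * m Γ x o := by exact_mod_cast cocycle Γ e4 x y o
  have n1 : (m Γ o x : ℝ) ≠ 0 := by exact_mod_cast e4 o x
  have n2 : (m Γ o y : ℝ) ≠ 0 := by exact_mod_cast e4 o y
  rw [div_eq_iff n1] at hx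
  rw [div_eq_iff n2]
  refine mul_right_cancel₀ n1 ?_
  rw [hx] at e5
  simp only [u] at e5 ⊢
  rcases e1 x y h with ⟨a1, a2⟩ | ⟨a1, a2⟩ <;> rcases e1 y x h.symm with ⟨b1, b2⟩ | ⟨b1, b2⟩
  · omega
  · rw [a2, b2] at e5
    rw [a1, zpow_add_one₀ (by norm_num)]
    push_cast at e5 ⊢
    linarith
  · rw [a2, b2] at e5
    rw [b1, zpow_add_one₀ (by norm_num)] at e5
    push_cast at e5 ⊢
    linarith
  · omega

noncomputable def σ : S → ℝ≥0 := Sum.elim (fun _ => 3) fun _ => 3⁻¹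

lemma u_nb {x y : V} {c : S} (h : ht y = ht x + sg c) : u y = u x * σ c := by
  rw [u, h, zpow_add₀ (by norm_num)]
  rcases c with c | c <;> simp [u, sg, σ]

lemma cheeger (F : Finset V) : ∃ B : Finset V, (∀ y ∈ B, y ∉ F ∧ ∃ x ∈ F, G.Adj x y) ∧
    20 * ∑ x ∈ F, u x ^ 2 ≤ ∑ y ∈ B, u y ^ 2 := by
  classical
  obtain ⟨nb, h1, h2, h3, -⟩ := ex_nb
  let N : Finset V := (F ×ˢ univ).image fun q : V × S => nb q.1 q.2
  refine ⟨N \ F, fun y hy => ?_, ?_⟩
  · obtain ⟨q, h4, h5⟩ := mem_image.1 (mem_sdiff.1 hy).1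
    exact ⟨(mem_sdiff.1 hy).2, q.1, (mem_product.1 h4).1, (h2 _ _).2 ⟨_, h5⟩⟩
  have e1 : ∑ q ∈ F ×ˢ univ, u (nb q.1 q.2) ^ 2 = 30 * ∑ x ∈ F, u x ^ 2 := by
    rw [sum_product, mul_sum]
    refine sum_congr rfl fun x _ => ?_
    simp only [u_nb (h3 x _), mul_pow, ← mul_sum, Fintype.sum_sum_type, σ]
    simp
    norm_num [mul_comm]
  rw [← sum_filter_add_sum_filter_not _ fun q : V × S => ∃ c, (nb q.1 q.2).1 = q.1.1 ++ [c]] at e1
  have e2 : ∑ q ∈ F ×ˢ univ with ∃ c, (nb q.1 q.2).1 = q.1.1 ++ [c], u (nb q.1 q.2) ^ 2 ≤ ∑ y ∈ N, u y ^ 2 := by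
    rw [← sum_image (g := fun q : V × S => nb q.1 q.2) (f := fun y => u y ^ 2)]
    · exact sum_le_sum_of_subset (image_subset_image (filter_subset _ _))
    · rintro ⟨x, c⟩ hx ⟨y, d⟩ hy h
      simp only [coe_filter, Set.mem_ofPred_eq] at hx hy h
      obtain ⟨-, s, hs⟩ := hx
      obtain ⟨-, t, ht⟩ := hy
      obtain rfl : x = y := Subtype.ext (List.append_inj_left' (hs.symm.trans ((congrArg Subtype.val h).trans ht)) rfl)
      rw [h1 x h]
  have e3 : ∑ q ∈ F ×ˢ univ with ¬ ∃ c, (nb q.1 q.2).1 = q.1.1 ++ [c], u (nb q.1 q.2) ^ 2 ≤ 9 * ∑ x ∈ F, u x ^ 2 := by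
    refine le_trans (sum_le_sum (g := fun q => 9 * u q.1 ^ 2) fun q _ => ?_) ?_
    · rw [u_nb (h3 _ _), mul_pow, mul_comm]
      gcongr
      rcases q.2 with c | c <;> simp only [σ, Sum.elim_inl, Sum.elim_inr, ← NNReal.coe_le_coe] <;> norm_num
    rw [mul_sum, ← sum_image (g := fun q : V × S => q.1) (f := fun y => 9 * u y ^ 2)]
    · exact sum_le_sum_of_subset (image_subset_iff.2 fun q hq => (mem_product.1 (mem_filter.1 hq).1).1)
    · rintro ⟨x, c⟩ hx ⟨y, d⟩ hy rfl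
      simp only [coe_filter, Set.mem_ofPred_eq] at hx hy
      obtain ⟨s, hs⟩ := (adj.1 ((h2 x _).2 ⟨c, rfl⟩)).resolve_left hx.2
      obtain ⟨t, ht⟩ := (adj.1 ((h2 x _).2 ⟨d, rfl⟩)).resolve_left hy.2
      rw [h1 x (Subtype.ext (List.append_inj_left' (hs.symm.trans ht) rfl))]
  have e4 : ∑ y ∈ N, u y ^ 2 ≤ ∑ y ∈ N \ F, u y ^ 2 + ∑ x ∈ F, u x ^ 2 := by
    rw [← sum_union sdiff_disjoint, sdiff_union_self_eq_union]
    exact sum_le_sum_of_subset subset_union_left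
  have := e1 ▸ add_le_add (e2.trans e4) e3
  rw [← NNReal.coe_le_coe] at this ⊢
  push_cast at this ⊢
  linarith

def E (nb : V → S → V) : V → List S → List (Sym2 V)
  | _, [] => []
  | x, c :: l => s(x, nb x c) :: E nb (nb x c) l

lemma light (p : unitInterval) (hp : (p : ℝ) ≤ 1 / 19) (x : V) :
    ∀ᵐ ω ∂Measure.infinitePi fun _ : Sym2 V => (volume : Measure unitInterval),
      ∑' y : {y | ∃ w : G.Walk x y, ∀ e ∈ w.edges, ω e < p}, ((u y ^ 2 : ℝ≥0) : ℝ≥0∞) ≠ ⊤ := by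
  classical
  obtain ⟨nb, -, h2, h3, -⟩ := ex_nb
  let A : List S → Set (Sym2 V → unitInterval) := fun l => {ω | (E nb x l).Nodup ∧ ∀ e ∈ E nb x l, ω e < p}
  have e0 : ∀ l x, (E nb x l).length = l.length := fun l => by induction l <;> simp [E, *]
  have e1 : ∀ l, MeasurableSet (A l) ∧ Measure.infinitePi (fun _ : Sym2 V => (volume : Measure unitInterval)) (A l) ≤
      ENNReal.ofReal p ^ l.length := fun l => by
    by_cases h : (E nb x l).Nodup
    · have : A l = Set.pi (E nb x l).toFinset fun _ => Set.Iio p := by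
        ext ω
        simp [A, h]
      rw [this, Measure.infinitePi_pi _ fun _ _ => measurableSet_Iio, prod_const, List.toFinset_card_of_nodup h, e0,
        unitInterval.volume_Iio]
      exact ⟨.pi (countable_toSet _) fun _ _ => measurableSet_Iio, le_rfl⟩
    · simp [A, h]
  have e2 : ∀ (l : List S) x, (u (l.foldl nb x) : ℝ≥0∞) = u x * (l.map fun c => (σ c : ℝ≥0∞)).prod := fun l => by
    induction l with
    | nil => simp
    | cons c l ih => intro x; simp [ih, u_nb (h3 x c), mul_assoc]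
  have e3 : ∀ (x y : V) (w : G.Walk x y), ∃ l, l.foldl nb x = y ∧ E nb x l = w.edges := fun x y w => by
    induction w with
    | nil => exact ⟨[], rfl, rfl⟩
    | cons h w ih =>
      obtain ⟨c, rfl⟩ := (h2 _ _).1 h
      obtain ⟨l, h4, h5⟩ := ih
      exact ⟨c :: l, h4, by simp [E, h5]⟩
  have hm : ∀ l, Measurable ((A l).indicator fun _ => (u (l.foldl nb x) : ℝ≥0∞)) := fun l =>
    measurable_const.indicator (e1 l).1
  have e4 : ∫⁻ ω, ∑' l, (A l).indicator (fun _ => (u (l.foldl nb x) : ℝ≥0∞)) ω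
      ∂Measure.infinitePi (fun _ : Sym2 V => (volume : Measure unitInterval)) ≠ ⊤ := by
    rw [lintegral_tsum fun l => (hm l).aemeasurable]
    refine ne_top_of_le_ne_top ?_ (ENNReal.tsum_le_tsum (g := fun l : List S =>
      u x * (l.map fun c => ENNReal.ofReal p * σ c).prod) fun l => ?_)
    · rw [ENNReal.tsum_mul_left, ← List.equivSigmaTuple.symm.tsum_eq, ENNReal.tsum_sigma']
      simp only [List.equivSigmaTuple_symm_apply, List.map_ofFn, List.prod_ofFn, tsum_fintype, Function.comp,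
        ← Fintype.sum_pow fun c => ENNReal.ofReal p * σ c, ENNReal.tsum_geometric]
      refine ENNReal.mul_ne_top ENNReal.coe_ne_top (ENNReal.inv_ne_top.2 (tsub_pos_of_lt ?_).ne')
      have : ∑ c, (σ c : ℝ≥0∞) = ENNReal.ofReal 18 := by
        rw [← ENNReal.ofNNReal_finsetSum, show ∑ c, σ c = 18 by
          rw [Fintype.sum_sum_type]
          simp [σ]
          norm_num]
        simp
      rw [← mul_sum, this, ← ENNReal.ofReal_mul p.2.1, ENNReal.ofReal_lt_one]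
      linarith
    · rw [lintegral_indicator_const (e1 l).1, e2, List.prod_map_mul, mul_assoc, mul_comm _ (List.prod _)]
      gcongr
      simpa using (e1 l).2
  filter_upwards [ae_lt_top (Measurable.tsum hm) e4] with ω hω
  have e5 : ∀ y : {y | ∃ w : G.Walk x y, ∀ e ∈ w.edges, ω e < p}, ∃ l : List S, l.foldl nb x = y.1 ∧ ω ∈ A l := fun ⟨y, w, hw⟩ => by
    obtain ⟨l, h4, h5⟩ := e3 x y w.bypass
    exact ⟨l, h4, h5 ▸ w.bypass_isPath.isTrail.edges_nodup, h5 ▸ fun e he => hw e (w.edges_bypass_subset_edges he)⟩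
  choose g h4 h5 using e5
  have e6 := ENNReal.tsum_comp_le_tsum_of_injective (f := g) (fun a b h => Subtype.ext (by rw [← h4, h, h4]))
    fun l => (A l).indicator (fun _ => (u (l.foldl nb x) : ℝ≥0∞)) ω
  simp only [Set.indicator_of_mem (h5 _), h4] at e6
  have e7 := (e6.trans_lt hω).ne
  refine ne_top_of_le_ne_top (ENNReal.mul_ne_top e7 e7) ?_
  rw [← ENNReal.tsum_mul_right]
  refine ENNReal.tsum_le_tsum fun y => ?_
  rw [sq, ENNReal.coe_mul]
  exact mul_le_mul_right (ENNReal.le_tsum y) _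

noncomputable def wt {V : Type} {G : SimpleGraph V} (Γ : Subgroup (G ≃g G)) (o : V) (K : Set V) : ℝ≥0∞ :=
  ∑' x : K, ENNReal.ofReal (m Γ x o / m Γ o x)

noncomputable def Φ {V : Type} {G : SimpleGraph V} (Γ : Subgroup (G ≃g G)) (o : V) : ℝ≥0∞ :=
  ⨅ (F : Finset V) (_ : F.Nonempty), wt Γ o {y | y ∉ F ∧ ∃ x ∈ F, G.Adj x y} / wt Γ o F

noncomputable def ph {V : Type} {G : SimpleGraph V} (Γ : Subgroup (G ≃g G)) (o : V) : unitInterval :=
  sInf {p | 0 < Measure.infinitePi (fun _ : Sym2 V => (volume : Measure unitInterval))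
    {ω | ∃ x, wt Γ o {y | ∃ w : G.Walk x y, ∀ e ∈ w.edges, ω e < p} = ⊤}}

theorem main : ∃ (V : Type) (G : SimpleGraph V) (Γ : Subgroup (G ≃g G)) (o : V), Infinite V ∧ G.Connected ∧
    (∀ v, (G.neighborSet v).Finite) ∧ (∀ φ : G ≃g G, (∀ F : Finset V, ∃ γ ∈ Γ, ∀ x ∈ F, γ x = φ x) → φ ∈ Γ) ∧
    (∀ x y, ∃ γ ∈ Γ, γ x = y) ∧ 1 / (Φ Γ o + 1) < ENNReal.ofReal (ph Γ o) := by
  classical
  have hw : ∀ K, wt Γ o K = ∑' x : K, ((u x ^ 2 : ℝ≥0) : ℝ≥0∞) := fun K => by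
    simp only [wt, w_eq, ENNReal.ofReal_coe_nnreal]
  have : Nonempty V := ⟨o⟩
  have : Countable V := Subtype.countable
  have hr : ∀ v, G.Reachable o v := ind .rfl fun x y h hx => hx.trans h.reachable
  refine ⟨V, G, Γ, o, ?_, ⟨fun x y => (hr x).symm.trans (hr y)⟩, fun v => ?_, fun φ h x y => ?_, fun x y => ?_, ?_⟩
  · refine Infinite.of_injective (fun n => (⟨List.replicate n (.inl 0), ?_⟩ : V)) fun a b h => ?_
    · exact List.isChain_replicate_of_rel _ (by decide)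
    · simpa [V] using h
  · obtain ⟨nb, -, h2, -⟩ := ex_nb
    exact (Set.finite_range (nb v)).subset fun y hy => (h2 v y).1 hy
  · obtain ⟨γ, h1, h2⟩ := h {x, y}
    rw [← h2 x (by simp), ← h2 y (by simp)]
    exact h1 x y
  · obtain ⟨γ, h1, rfl⟩ := trans x
    obtain ⟨δ, h2, rfl⟩ := trans y
    exact ⟨δ * γ⁻¹, Γ.mul_mem h2 (Γ.inv_mem h1), by simp⟩
  have h1 : 20 ≤ Φ Γ o := by
    refine le_iInf₂ fun F hF => ?_
    obtain ⟨B, h1, h2⟩ := cheeger F
    have h3 : wt Γ o F = (∑ x ∈ F, u x ^ 2 : ℝ≥0) := by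
      rw [hw, ENNReal.ofNNReal_finsetSum]
      exact F.tsum_subtype' fun x => ((u x ^ 2 : ℝ≥0) : ℝ≥0∞)
    have h4 : 0 < ∑ x ∈ F, u x ^ 2 := sum_pos (fun x _ => by unfold u; positivity) hF
    rw [h3, ENNReal.le_div_iff_mul_le (Or.inl (by exact_mod_cast h4.ne')) (Or.inl ENNReal.coe_ne_top), hw]
    refine le_trans ?_ (ENNReal.tsum_mono_subtype (fun x => ((u x ^ 2 : ℝ≥0) : ℝ≥0∞)) (s := B) h1)
    rw [B.tsum_subtype' fun x => ((u x ^ 2 : ℝ≥0) : ℝ≥0∞)]
    exact_mod_cast h2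
  have h2 : (⟨1 / 19, by norm_num, by norm_num⟩ : unitInterval) ≤ ph Γ o := by
    refine le_sInf fun p hp => not_lt.1 fun h => hp.ne' (measure_eq_zero_iff_ae_notMem.2 ?_)
    filter_upwards [ae_all_iff.2 (light p (le_of_lt h))] with ω hω ⟨x, hx⟩
    exact hω x (hw _ ▸ hx)
  refine lt_of_lt_of_le ?_ (ENNReal.ofReal_le_ofReal h2)
  refine lt_of_le_of_lt (ENNReal.div_le_div_left (add_le_add_left h1 1) 1) ?_
  rw [ENNReal.lt_ofReal_iff_toReal_lt (by finiteness), ENNReal.toReal_div, ENNReal.toReal_add (by simp) (by simp)]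
  norm_num

end Pool.Agent.H.MP_6c3571_pr
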